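import Pool.Agent.H626.SE.MinDeg

/-!
# MP_3b2d6a_co: graphs with many vertices of degree at least three do not have `s⁺ = n`
-/

set_option autoImplicit false

namespace Pool.Agent.Results.MP_3b2d6a_co.ManyBranchVertices

open Pool.Agent.H626.SE

theorem herm {V : Type*} [Fintype V] [DecidableEq V] (G : SimpleGraph V) [DecidableRel G.Adj] :
    (G.adjMatrix ℝ).IsHermitian := by
  rw [Matrix.IsHermitian, Matrix.conjTranspose_eq_transpose_of_trivial]
  exact G.isSymm_adjMatrix

open Classical in
/-- The eigenvalues of the adjacency matrix of a finite graph, listed with multiplicity. -/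
noncomputable def eig {V : Type*} [Fintype V] (G : SimpleGraph V) : V → ℝ :=
  (herm G).eigenvalues

/-- The positive square energy `s⁺`: the sum of the squares of the positive eigenvalues. -/
noncomputable def sPlus {V : Type*} [Fintype V] (G : SimpleGraph V) : ℝ :=
  ∑ i, if 0 < eig G i then eig G i ^ 2 else 0

/-- If `G` is a graph with `n ≥ 1` vertices and the sum of `min (deg v) 3` over all vertices is at
least `2.43 n`, then `s⁺(G) > n`. -/
theorem result {V : Type*} [Fintype V] [Nonempty V] (G : SimpleGraph V) (n : ℕ)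
    (hn : Fintype.card V = n)
    (h : (2.43 : ℝ) * n ≤ ((∑ v, min (G.neighborSet v).ncard 3 : ℕ) : ℝ)) :
    (n : ℝ) < sPlus G := by
  classical
  subst hn
  have h0 : sPlus G = ∑ i, (max ((herm G).eigenvalues i) 0) ^ 2 := sq_plus G (herm G)
  have h1 := trunc_bound G (herm G) 3 (by norm_num)
  have h2 : ∀ v, (Finset.univ.filter fun j => G.Adj v j).card = (G.neighborSet v).ncard := by
    intro v
    rw [Set.ncard_eq_toFinset_card']
    congr 1
    ext w
    simp
  simp_rw [h2] at h1
  rw [← h0] at h1
  have hS : 0 ≤ sPlus G := by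
    rw [h0]
    exact Finset.sum_nonneg fun i _ => sq_nonneg _
  set M : ℝ := ((∑ v, min (G.neighborSet v).ncard 3 : ℕ) : ℝ)
  have h3 : √(((3 : ℕ) : ℝ)) ≤ 1.7321 := by
    rw [Real.sqrt_le_left (by norm_num)]
    norm_num
  have h4 : (1 : ℝ) ≤ Fintype.card V := by exact_mod_cast Fintype.card_pos
  have hM0 : 0 < M := by linarith
  have h5 : sPlus G * ((5 + 2 * √(((3 : ℕ) : ℝ))) * M + ((3 : ℕ) : ℝ) * Fintype.card V)
      ≤ sPlus G * (8.4642 * M + 3 * Fintype.card V) := by
    refine mul_le_mul_of_nonneg_left ?_ hS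
    push_cast
    nlinarith
  have h6 := h1.trans h5
  have h7 : (Fintype.card V : ℝ) * (8.4642 * M + 3 * Fintype.card V) < 4 * M ^ 2 := by
    nlinarith [mul_nonneg (by linarith : (0 : ℝ) ≤ Fintype.card V) (sub_nonneg.mpr h),
      mul_nonneg hM0.le (sub_nonneg.mpr h)]
  exact lt_of_mul_lt_mul_right (h7.trans_le h6) (by positivity)

end Pool.Agent.Results.MP_3b2d6a_co.ManyBranchVertices
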